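import Pool.Agent.MP_f58063_ag.Defs

/-! Algebraic subvarieties of the moduli space of principally polarized abelian varieties, read
in the Siegel upper half space: definitions. -/

open Complex Filter Topology

noncomputable section

namespace Pool.Agent.MP_f58063_ag

/-- the Siegel modular group `Sp(2g, ℤ)` -/
abbrev Sp (g : ℕ) : Type := Matrix.symplecticGroup (Fin g) ℤ

/-- the action `τ ↦ (A τ + B) (C τ + D)⁻¹` -/
def act {g : ℕ} (γ : Sp g) (τ : Mat g) : Mat g :=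
  Matrix.of.symm
    (((γ.1.map (Int.cast : ℤ → ℂ)).toBlocks₁₁ * Matrix.of τ +
        (γ.1.map (Int.cast : ℤ → ℂ)).toBlocks₁₂) *
      ((γ.1.map (Int.cast : ℤ → ℂ)).toBlocks₂₁ * Matrix.of τ +
        (γ.1.map (Int.cast : ℤ → ℂ)).toBlocks₂₂)⁻¹)

/-- `S` is a connected complex submanifold of dimension `d` -/
def IsMfd {g : ℕ} (S : Set (Mat g)) (d : ℕ) : Prop :=
  IsPreconnected S ∧ ∀ τ ∈ S, ∃ f : (Fin d → ℂ) → Mat g, f 0 = τ ∧ AnalyticAt ℂ f 0 ∧
    Function.Injective (fderiv ℂ f 0) ∧ map f (𝓝 0) = 𝓝[S] τ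

/-- `h / t` is a `Γ`-invariant meromorphic function on the Siegel space -/
def IsModFun {g : ℕ} (Γ : Subgroup (Sp g)) (h t : Mat g → ℂ) : Prop :=
  AnalyticOnNhd ℂ h (Siegel g) ∧ AnalyticOnNhd ℂ t (Siegel g) ∧
    ∀ γ ∈ Γ, ∀ τ ∈ Siegel g, h (act γ τ) * t τ = h τ * t (act γ τ)

/-- any `d + 1` modular functions that are defined somewhere on `S` are algebraically dependent
on `S`: the Zariski closure of the image of `S` in the moduli space has dimension at most `d` -/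
def AlgDim {g : ℕ} (S : Set (Mat g)) (d : ℕ) : Prop :=
  ∀ Γ : Subgroup (Sp g), Γ.FiniteIndex → ∀ h t : Fin (d + 1) → Mat g → ℂ,
    (∀ i, IsModFun Γ (h i) (t i)) → (∀ i, ∃ τ ∈ S, t i τ ≠ 0) →
      ∃ P : MvPolynomial (Fin (d + 1)) ℂ, P ≠ 0 ∧
        ∀ τ ∈ S, (∀ i, t i τ ≠ 0) → MvPolynomial.eval (fun i => h i τ / t i τ) P = 0

/-- big monodromy: in every subgroup of finite index the elements that preserve `S` are Zariski
dense in `Sp(2g, ℂ)` -/
def BigMon {g : ℕ} (S : Set (Mat g)) : Prop :=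
  ∀ Γ : Subgroup (Sp g), Γ.FiniteIndex →
    ∀ P : MvPolynomial ((Fin g ⊕ Fin g) × (Fin g ⊕ Fin g)) ℂ,
      (∀ γ ∈ Γ, Set.MapsTo (act γ) S S →
        MvPolynomial.eval (fun a => (γ.1 a.1 a.2 : ℂ)) P = 0) →
      ∀ M ∈ Matrix.symplecticGroup (Fin g) ℂ, MvPolynomial.eval (fun a => M a.1 a.2) P = 0

end Pool.Agent.MP_f58063_ag
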